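import Pool.Agent.H28.RC.Targets5
import Pool.Agent.H81.RC.HE

/-!
# The L-function of a ray class character is meromorphic on the complex plane
-/

set_option autoImplicit false

open NumberField NumberField.InfinitePlace NumberField.Units
  NumberField.Units.dirichletUnitTheorem MeasureTheory Set Filter Complex
open scoped nonZeroDivisors ENNReal

namespace Pool.Agent.H60.RC

open Pool.Agent.H28.RC Pool.Agent.H25.HK Pool.Agent.H25 Pool.Agent.H81.RC.HE

/-- the Mellin transform of a pair is meromorphic -/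
lemma MER_lam (P : WeakFEPair ℂ) (s : ℂ) : MeromorphicAt P.Λ s := by
  have h6 : P.Λ = fun s => P.Λ₀ s - (1 / s) • P.f₀ - (P.ε / (P.k - s)) • P.g₀ := rfl
  rw [h6]
  have h1 : MeromorphicAt P.Λ₀ s := (P.differentiable_Λ₀.analyticAt s).meromorphicAt
  have h2 : MeromorphicAt (fun s : ℂ => 1 / s) s :=
    (MeromorphicAt.const 1 s).div (MeromorphicAt.id s)
  have h3 : MeromorphicAt (fun s : ℂ => P.ε / (P.k - s)) s :=
    (MeromorphicAt.const P.ε s).div ((MeromorphicAt.const (P.k : ℂ) s).sub (MeromorphicAt.id s))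
  have h4 : MeromorphicAt (fun s : ℂ => (1 / s) • P.f₀) s := h2.smul (MeromorphicAt.const P.f₀ s)
  have h5 : MeromorphicAt (fun s : ℂ => (P.ε / (P.k - s)) • P.g₀) s :=
    h3.smul (MeromorphicAt.const P.g₀ s)
  exact (h1.sub h4).sub h5

theorem pf_MER : T_WPc → T_MEc → T_CSc → T_EPc → T_DU → T_CW → T_MER := by
  intro hWP hME hCS hEP hDU hCW K _ _ χ
  classical
  obtain ⟨W, hW⟩ := hCW K χ
  obtain ⟨ι, hι, M, hM0, hM1, hM2⟩ := hCS K χ.f χ.f_ne
  choose P hPf hPg hPk hPε hPf0 hPg0 using fun c => hWP K χ W (M c) hW (hM0 c)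
  have hN : ∀ c, 0 < (FractionalIdeal.absNorm (M c) : ℝ) := fun c =>
    (hDU K (M c) (hM0 c)).2.2.2.1
  refine ⟨fun s => (cK K)⁻¹ * (gS χ s)⁻¹ *
    LK (fun c => (FractionalIdeal.absNorm (M c) : ℝ)) P s, fun s => ?_, fun s hs => ?_⟩
  · refine ((MeromorphicAt.const _ s).mul
      ((gS_inv_diff χ).analyticAt s).meromorphicAt).mul ?_
    have h : LK (fun c => (FractionalIdeal.absNorm (M c) : ℝ)) P = fun s =>
      ∑ c, (((FractionalIdeal.absNorm (M c) : ℝ) : ℝ) : ℂ) ^ s * (P c).Λ s := rfl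
    rw [h]
    refine MeromorphicAt.fun_sum fun c _ => ?_
    have h1 : Differentiable ℂ
        (fun s : ℂ => (((FractionalIdeal.absNorm (M c) : ℝ) : ℝ) : ℂ) ^ s) := fun s =>
      (differentiableAt_id).const_cpow (Or.inl (by exact_mod_cast (hN c).ne'))
    exact (h1.analyticAt s).meromorphicAt.mul (MER_lam (P c) s)
  · show (cK K)⁻¹ * (gS χ s)⁻¹ * LK (fun c => (FractionalIdeal.absNorm (M c) : ℝ)) P s = Lc χ s
    rw [LK_eq hME hEP χ M hM0 hM1 hN P hPk hPf hPf0 s hs]
    have h1 := cK_ne K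
    have h2 := gS_ne_of_re χ (s := s) (by linarith)
    field_simp

end Pool.Agent.H60.RC
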