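import Pool.Agent.H28.RC.Targets5
import Pool.Agent.H11.HK.AE

/-!
# Existence of the Artin L-functions (Brauer)
-/

set_option autoImplicit false

open NumberField Complex Filter

namespace Pool.Agent.H60.RC

open Pool.Agent.H28.RC Pool.Agent.H25.HK Pool.Agent.H25

theorem pf_EXA : T_MER → T_EPc → T_CM0 → T_CM3 → T_LP → T_PW → DL.T_AL → T_EXA := by
  classical
  intro hMER hEP hCM0 hCM3 hLP hPW hAL R
  obtain ⟨D⟩ := hCM0 R
  have hcm3 := hCM3 R D
  choose Z hZm hZ using fun i => hMER (FF R (D.H i)) (D.χ i)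
  choose g g0 g1 gm gle _ gser gpow using fun i => (hEP (FF R (D.H i)) (D.χ i)).2
  choose α hα1 hα2 using fun p => hAL R p
  refine ⟨fun s => ∏ i, Z i s ^ D.n i, fun s => ?_, fun s hs => ?_⟩
  · exact MeromorphicAt.fun_prod fun i _ => (hZm i s).fun_zpow _
  · show HasProd (fun p => R.euler p s) (∏ i, Z i s ^ D.n i)
    have hZ' : ∀ i, Z i s = ∏ j, ∑' m : ℕ, g i j m * (m : ℂ) ^ (-s) := fun i => by
      rw [hZ i s hs, gser i s hs]
    have hne : ∀ i, Z i s ≠ 0 := fun i => by
      rw [hZ']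
      exact Finset.prod_ne_zero_iff.mpr fun j _ =>
        Pool.Agent.H11.HK.ser_ne (g i j) (g0 i j) (g1 i j) (gm i j) (gle i j) hs
    have hζ1 : ∀ i, HasProd (fun p : Nat.Primes =>
        ∏ j, (1 - g i j p * ((p : ℕ) : ℂ) ^ (-s))⁻¹) (Z i s) := by
      intro i
      rw [hZ']
      exact hasProd_prod fun j _ => Pool.Agent.H11.HK.ser_prod (g i j) (g0 i j)
        (g1 i j) (gm i j) (gle i j) hs
    have hA : HasProd (fun p : Nat.Primes =>
        ∏ i, (∏ j, (1 - g i j p * ((p : ℕ) : ℂ) ^ (-s))⁻¹) ^ (D.n i)) (∏ i, Z i s ^ D.n i) :=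
      hasProd_prod fun i _ => Pool.Agent.H11.HK.hasProd_zpow (hζ1 i) (hne i) _
    have hps : ∀ (p : Nat.Primes) (r : ℕ), 1 ≤ r →
        ∑ j, α p j ^ r = ∑ i, (D.n i : ℂ) * ∑ j, g i j p ^ r := by
      intro p r hr
      refine Eq.trans (hPW R.V (R.fr p) (α p) (hα2 p) r hr).symm ?_
      rw [hcm3 p r hr]
      exact Finset.sum_congr rfl fun i _ => by rw [gpow i p r p.2 hr]
    have hfac : ∀ p : Nat.Primes, R.euler p s =
        ∏ i, (∏ j, (1 - g i j p * ((p : ℕ) : ℂ) ^ (-s))⁻¹) ^ (D.n i) := by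
      intro p
      have hX : ‖((p : ℕ) : ℂ) ^ (-s)‖ < 1 := by
        rw [norm_natCast_cpow_of_pos p.2.pos, neg_re]
        exact Real.rpow_lt_one_of_one_lt_of_neg (by exact_mod_cast p.2.one_lt) (by linarith)
      have h1 := hLP (Option (Fin D.N))
        (fun i => i.elim R.dim fun i => Module.finrank ℚ (FF R (D.H i)))
        (fun i => i.elim (1 : ℤ) fun i => -(D.n i))
        (fun i => match i with
          | none => fun j => α p j
          | some i => fun j => g i j p)
        (fun i j => by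
          match i with
          | none => exact hα1 p j
          | some i => exact gle i j p)
        (fun r hr => by
          rw [Fintype.sum_option]
          simp only [Option.elim_none, Option.elim_some, Int.cast_one, one_mul, Int.cast_neg,
            neg_mul, Finset.sum_neg_distrib]
          rw [← sub_eq_add_neg, sub_eq_zero]
          exact hps p r hr) _ hX
      rw [Fintype.prod_option] at h1
      simp only [Option.elim_none, Option.elim_some, zpow_one, zpow_neg,
        Finset.prod_inv_distrib] at h1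
      have h2 : ∏ i, (∏ j, (1 - g i j p * ((p : ℕ) : ℂ) ^ (-s))⁻¹) ^ (D.n i) ≠ 0 := by
        refine Finset.prod_ne_zero_iff.mpr fun i _ => zpow_ne_zero _ ?_
        refine Finset.prod_ne_zero_iff.mpr fun j _ => inv_ne_zero ?_
        intro h3
        have h4 : g i j p * ((p : ℕ) : ℂ) ^ (-s) = 1 := (sub_eq_zero.1 h3).symm
        have h5 := congrArg norm h4
        rw [norm_mul, norm_one] at h5
        have h6 := gle i j p
        have h7 : ‖g i j p‖ * ‖((p : ℕ) : ℂ) ^ (-s)‖ ≤ 1 * ‖((p : ℕ) : ℂ) ^ (-s)‖ := by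
          gcongr
        linarith
      have h3 : R.euler p s = ∏ j, (1 - α p j * ((p : ℕ) : ℂ) ^ (-s))⁻¹ := by
        unfold DL.ArtinRep.euler
        rw [hα2, Finset.prod_inv_distrib]
      rw [h3]
      simp only [Finset.prod_inv_distrib] at h1 h2 ⊢
      exact (mul_inv_eq_one₀ h2).1 h1
    simp_rw [hfac]
    exact hA

end Pool.Agent.H60.RC
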