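import Pool.Agent.H28.RC.Targets3

/-!
LFA: norms of elements congruent to one.
-/

set_option autoImplicit false

open NumberField

namespace Pool.Agent.H60.RC

open Pool.Agent.H28.RC

namespace LFA

variable {F L : Type} [Field F] [NumberField F] [Field L] [NumberField L] [Algebra F L]

section cong

/-- the integral closure in an algebraic closure -/
abbrev RR (F : Type) [Field F] [NumberField F] : Type :=
  integralClosure (𝓞 F) (AlgebraicClosure F)

theorem comap_map (m : Ideal (𝓞 F)) :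
    (m.map (algebraMap (𝓞 F) (RR F))).comap (algebraMap (𝓞 F) (RR F)) = m :=
  Ideal.comap_map_eq_self_of_faithfullyFlat m

theorem mem_R (σ : L →ₐ[F] AlgebraicClosure F) (x : 𝓞 L) :
    ((σ : L →+* AlgebraicClosure F).comp (algebraMap (𝓞 L) L)) x ∈
      integralClosure (𝓞 F) (AlgebraicClosure F) := by
  have h1 : IsIntegral ℤ (x : L) := x.isIntegral_coe
  have h2 : IsIntegral ℤ (σ (x : L)) := h1.map (σ.restrictScalars ℤ)
  exact h2.tower_top

/-- the map induced by an embedding -/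
noncomputable def rs (σ : L →ₐ[F] AlgebraicClosure F) : 𝓞 L →+* RR F :=
  ((σ : L →+* AlgebraicClosure F).comp (algebraMap (𝓞 L) L)).codRestrict
    (integralClosure (𝓞 F) (AlgebraicClosure F)) (mem_R σ)

theorem rs_coe (σ : L →ₐ[F] AlgebraicClosure F) (x : 𝓞 L) :
    ((rs σ x : RR F) : AlgebraicClosure F) = σ (x : L) := rfl

theorem rs_comp (σ : L →ₐ[F] AlgebraicClosure F) :
    (rs σ).comp (algebraMap (𝓞 F) (𝓞 L)) = algebraMap (𝓞 F) (RR F) := by
  ext x
  show σ (algebraMap F L (x : F)) = _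
  rw [σ.commutes]
  rfl

theorem prod_cong (m : Ideal (𝓞 F)) (a : 𝓞 L)
    (ha : a - 1 ∈ m.map (algebraMap (𝓞 F) (𝓞 L))) :
    ∏ σ : L →ₐ[F] AlgebraicClosure F, rs σ a - 1 ∈ m.map (algebraMap (𝓞 F) (RR F)) := by
  rw [← Ideal.Quotient.eq, map_prod, map_one]
  refine Finset.prod_eq_one fun σ _ => ?_
  rw [← map_one (Ideal.Quotient.mk _), Ideal.Quotient.eq, ← rs_comp σ, ← Ideal.map_map,
    ← map_one (rs σ), ← map_sub]
  exact Ideal.mem_map_of_mem _ ha

theorem coe_norm (a : 𝓞 L) :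
    ((Algebra.intNorm (𝓞 F) (𝓞 L) a : 𝓞 F) : F) = Algebra.norm F (a : L) :=
  Algebra.algebraMap_intNorm (A := 𝓞 F) (K := F) (L := L) (B := 𝓞 L) a

theorem norm_cong (m : Ideal (𝓞 F)) (a : 𝓞 L)
    (ha : a - 1 ∈ m.map (algebraMap (𝓞 F) (𝓞 L))) :
    Algebra.intNorm (𝓞 F) (𝓞 L) a - 1 ∈ m := by
  rw [← comap_map m, Ideal.mem_comap, map_sub, map_one]
  have h1 : algebraMap (𝓞 F) (RR F) (Algebra.intNorm (𝓞 F) (𝓞 L) a) =
      ∏ σ : L →ₐ[F] AlgebraicClosure F, rs σ a := by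
    apply Subtype.ext
    have h2 := Algebra.norm_eq_prod_embeddings F (AlgebraicClosure F) (a : L)
    rw [← coe_norm] at h2
    have h3 : ((∏ σ : L →ₐ[F] AlgebraicClosure F, rs σ a : RR F) : AlgebraicClosure F) =
        ∏ σ : L →ₐ[F] AlgebraicClosure F, σ (a : L) := by
      push_cast
      rfl
    rw [h3, ← h2]
    rfl
  rw [h1]
  exact prod_cong m a ha

end cong

section pos

/-- complex conjugation of an embedding over a real embedding -/
noncomputable def cj [Algebra F ℂ] (h : ∀ x : F, (starRingEnd ℂ) (algebraMap F ℂ x) =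
    algebraMap F ℂ x) (σ : L →ₐ[F] ℂ) : L →ₐ[F] ℂ :=
  { (starRingEnd ℂ).comp (σ : L →+* ℂ) with
    commutes' := fun x => by
      show (starRingEnd ℂ) (σ (algebraMap F L x)) = _
      rw [σ.commutes, h] }

theorem cj_apply [Algebra F ℂ] (h : ∀ x : F, (starRingEnd ℂ) (algebraMap F ℂ x) =
    algebraMap F ℂ x) (σ : L →ₐ[F] ℂ) (x : L) : cj h σ x = (starRingEnd ℂ) (σ x) := rfl

theorem prod_pos [Algebra F ℂ] (h : ∀ x : F, (starRingEnd ℂ) (algebraMap F ℂ x) =
    algebraMap F ℂ x) (a : L) (ha0 : a ≠ 0) (ha : ∀ v : RP L, 0 < re v a) :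
    ∏ σ : L →ₐ[F] ℂ, σ a = ((∏ σ : L →ₐ[F] ℂ, ‖σ a‖ : ℝ) : ℂ) := by
  have hne : ∀ σ : L →ₐ[F] ℂ, ((‖σ a‖ : ℝ) : ℂ) ≠ 0 := by
    intro σ
    have h1 : σ a ≠ 0 := (map_ne_zero σ).2 ha0
    exact_mod_cast norm_ne_zero_iff.2 h1
  have key : ∏ σ : L →ₐ[F] ℂ, σ a / ((‖σ a‖ : ℝ) : ℂ) = 1 := by
    refine Finset.prod_involution (fun σ _ => cj h σ) ?_ ?_ (fun _ _ => Finset.mem_univ _) ?_
    · intro σ _
      rw [cj_apply, Complex.norm_conj, div_mul_div_comm, Complex.mul_conj', ← pow_two, div_self]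
      exact pow_ne_zero 2 (hne σ)
    · intro σ _ h1 h2
      apply h1
      have hr : ComplexEmbedding.IsReal (σ : L →+* ℂ) := by
        rw [ComplexEmbedding.isReal_iff]
        ext x
        show (starRingEnd ℂ) (σ x) = σ x
        rw [← cj_apply h, h2]
      have h3 := ha ⟨InfinitePlace.mk (σ : L →+* ℂ), InfinitePlace.isReal_iff.2 (by
        rw [InfinitePlace.embedding_mk_eq_of_isReal hr]
        exact hr)⟩
      have h4 : ((re (⟨InfinitePlace.mk (σ : L →+* ℂ), InfinitePlace.isReal_iff.2 (by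
          rw [InfinitePlace.embedding_mk_eq_of_isReal hr]
          exact hr)⟩ : RP L) a : ℝ) : ℂ) = σ a := by
        unfold re
        rw [InfinitePlace.embedding_of_isReal_apply, InfinitePlace.embedding_mk_eq_of_isReal hr]
        rfl
      rw [← h4, Complex.norm_real, Real.norm_of_nonneg h3.le, div_self]
      exact_mod_cast h3.ne'
    · intro σ _
      ext x
      rw [cj_apply, cj_apply, Complex.conj_conj]
  calc ∏ σ : L →ₐ[F] ℂ, σ a = ∏ σ : L →ₐ[F] ℂ, (σ a / ((‖σ a‖ : ℝ) : ℂ) * ((‖σ a‖ : ℝ) : ℂ)) := by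
        refine Finset.prod_congr rfl fun σ _ => ?_
        rw [div_mul_cancel₀ _ (hne σ)]
    _ = ((∏ σ : L →ₐ[F] ℂ, ‖σ a‖ : ℝ) : ℂ) := by
        rw [Finset.prod_mul_distrib, key, one_mul]
        push_cast
        rfl

theorem norm_pos (v : RP F) (a : L) (ha0 : a ≠ 0) (ha : ∀ v : RP L, 0 < re v a) :
    0 < re v (Algebra.norm F a) := by
  letI : Algebra F ℂ := (Complex.ofRealHom.comp (InfinitePlace.embedding_of_isReal v.2)).toAlgebra
  have hal : ∀ x : F, algebraMap F ℂ x = ((re v x : ℝ) : ℂ) := fun x => rfl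
  have h : ∀ x : F, (starRingEnd ℂ) (algebraMap F ℂ x) = algebraMap F ℂ x := by
    intro x
    rw [hal, Complex.conj_ofReal]
  have h1 := Algebra.norm_eq_prod_embeddings F ℂ a
  rw [prod_pos h a ha0 ha, hal] at h1
  have h2 : re v (Algebra.norm F a) = ∏ σ : L →ₐ[F] ℂ, ‖σ a‖ := by exact_mod_cast h1
  rw [h2]
  refine Finset.prod_pos fun σ _ => ?_
  exact norm_pos_iff.2 ((map_ne_zero σ).2 ha0)

end pos

end LFA

theorem pf_LFA : T_LFA := by
  intro F L _ _ _ _ _ m a ha ha0 hv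
  have ha0' : (a : L) ≠ 0 := by
    rwa [Ne, RingOfIntegers.coe_eq_zero_iff]
  refine ⟨Algebra.intNorm (𝓞 F) (𝓞 L) a, ?_, LFA.norm_cong m a ha, ?_, ?_⟩
  · intro h
    have h1 := LFA.coe_norm (F := F) a
    rw [h] at h1
    have h2 : Algebra.norm F (a : L) = 0 := by
      rw [← h1]
      rfl
    exact ha0' (Algebra.norm_eq_zero_iff.1 h2)
  · intro v
    rw [LFA.coe_norm]
    exact LFA.norm_pos v _ ha0' hv
  · exact Ideal.relNorm_singleton (R := 𝓞 F) a

end Pool.Agent.H60.RC
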