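import Pool.Agent.H70.RC.Targets
import Pool.Agent.H59.NB.BBV
import Pool.Agent.H19.NB.Small

/-!
# Locality and probabilities; one stage
-/

set_option autoImplicit false

namespace Pool.Agent.H60.RC

open Finset Filter Pool.Agent.H70.RC

theorem pf_LOC : T_LOC := by
  intro Q
  refine ⟨fun O => ⟨sum_nonneg fun i _ => by positivity, ?_⟩, fun m O O' hS h =>
    Pool.Agent.H19.NB.t_pcg Q O O' fun i w hw => h w (hS i w hw)⟩
  have h1 := Pool.Agent.H59.NB.BBV.norm_state Q O Q.T
  have h2 := Pool.Agent.H59.NB.BBV.norm_ev_sq (Q.state O Q.T)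
  rw [h1, one_pow] at h2
  rw [h2]
  exact sum_le_sum_of_subset_of_nonneg (subset_univ _) fun i _ _ => by positivity

theorem pf_STG (hESY : T_ESY) : T_STG := by
  intro V f Q c hQ hf D hD n₀
  obtain ⟨C, hC⟩ := hESY V f Q c hQ
  obtain ⟨n, hn1, hn2, hn3⟩ := ((hf C).and_eventually (hC.and (eventually_ge_atTop n₀))).exists
  set N := n ^ (c + 1) + c + 1 with hN
  have hnc : n ^ c ≤ n ^ (c + 1) + 1 := by
    rcases Nat.eq_zero_or_pos n with h | h
    · subst h
      rcases Nat.eq_zero_or_pos c with h' | h'
      · subst h'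
        simp
      · rw [zero_pow h'.ne']
        omega
    · exact (Nat.pow_le_pow_right h (Nat.le_succ c)).trans (Nat.le_succ _)
  have hnN : n ≤ N := by
    rcases Nat.eq_zero_or_pos n with h | h
    · omega
    · have : n ^ 1 ≤ n ^ (c + 1) := Nat.pow_le_pow_right h (by omega)
      rw [pow_one] at this
      omega
  have h1 : ∃ X, ∃ σ : Se n N, okE σ ∧ ¬ Right (Q n) (orc V (ins n N D X σ)) (f n X) := by
    by_contra h
    push Not at h
    exact hn1 (hn2 N rfl D h)
  obtain ⟨X, σ, hσ, hR⟩ := h1
  have hX : (ins n N D X σ).X n = X := by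
    unfold ins
    exact Function.update_self _ _ _
  have hX' : ∀ n', n' ≠ n → (ins n N D X σ).X n' = D.X n' := by
    intro n' h
    unfold ins
    exact Function.update_of_ne h _ _
  refine ⟨n, N, hn3, hnN, fun i w hw => ((hQ n).2 i w hw).trans (by omega), ins n N D X σ, ⟨?_, ?_⟩,
    ⟨?_, ?_, ?_, ?_⟩, ?_⟩
  · intro n'
    by_cases h : n' = n
    · subst h
      rw [hX]
      intro h0
      exact hR ⟨fun h => by rw [h0] at h; exact absurd h (by simp),
        fun h => by rw [h0] at h; exact absurd h (by simp)⟩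
    · rw [hX' n' h]
      exact hD.1 n'
  · intro p
    by_cases h : n ≤ p.1.length ∧ p.1.length ≤ N
    · have h2 := hσ ⟨⟨p.1, h⟩, p.2⟩
      have e1 : (ins n N D X σ).a p.1 = σ.1 ⟨p.1, h⟩ := by
        unfold ins
        exact dif_pos h
      have e2 : (ins n N D X σ).c p = σ.2.2 ⟨⟨p.1, h⟩, p.2⟩ := by
        unfold ins
        exact dif_pos h
      rw [e1, e2]
      exact h2
    · have e1 : (ins n N D X σ).a p.1 = D.a p.1 := by
        unfold ins
        exact dif_neg h
      have e2 : (ins n N D X σ).c p = D.c p := by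
        unfold ins
        exact dif_neg h
      rw [e1, e2]
      exact hD.2 p
  · intro n' h
    exact (hX' n' (by omega)).symm
  · intro s h
    have h' : ¬ (n ≤ s.length ∧ s.length ≤ N) := by omega
    have e : (ins n N D X σ).a s = D.a s := by
      unfold ins
      exact dif_neg h'
    exact e.symm
  · intro s h
    have h' : ¬ (n ≤ s.length ∧ s.length ≤ N) := by omega
    have e : (ins n N D X σ).h s = D.h s := by
      unfold ins
      exact dif_neg h'
    exact e.symm
  · intro p h
    have h' : ¬ (n ≤ p.1.length ∧ p.1.length ≤ N) := by omega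
    have e : (ins n N D X σ).c p = D.c p := by
      unfold ins
      exact dif_neg h'
    exact e.symm
  · rw [hX]
    exact hR

end Pool.Agent.H60.RC
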