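import Pool.Agent.H70.RC.Targets

/-!
# The number of codes
-/

set_option autoImplicit false

namespace Pool.Agent.H60.RC

open Finset Pool.Agent.H70.RC

theorem sum_nc (r t : ℕ) (x : ℝ) :
    ∑ α : Fin r → Fin t → Option (Bool × Bool), x ^ nc α = (1 + 4 * x) ^ (r * t) := by
  rw [← Equiv.sum_comp (Equiv.curry (Fin r) (Fin t) (Option (Bool × Bool)))]
  have h1 : ∀ β : Fin r × Fin t → Option (Bool × Bool),
      x ^ nc (Equiv.curry (Fin r) (Fin t) (Option (Bool × Bool)) β) =
      ∏ p, (if (β p).isSome then x else 1) := by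
    intro β
    rw [prod_ite, prod_const, prod_const_one, mul_one]
    rfl
  simp only [h1]
  have h2 := Finset.prod_univ_sum (R := ℝ) (ι := Fin r × Fin t)
    (fun _ => (univ : Finset (Option (Bool × Bool)))) (fun _ o => if o.isSome then x else 1)
  rw [Fintype.piFinset_univ] at h2
  rw [← h2]
  have h3 : ∑ o : Option (Bool × Bool), (if o.isSome then x else 1) = 1 + 4 * x := by
    rw [Fintype.sum_option]
    simp [Fintype.card_prod]
  rw [prod_congr rfl (fun _ _ => h3), prod_const, card_univ, Fintype.card_prod, Fintype.card_fin,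
    Fintype.card_fin]

theorem pf_CNT : T_CNT := by
  intro r t M hM hM1
  have hMpos : (0 : ℝ) < M := by exact_mod_cast hM1
  rcases Nat.eq_zero_or_pos (r * t) with h0 | h0
  · rcases Nat.eq_zero_or_pos r with hr | hr
    · subst hr
      have h1 : ∀ α : Fin 0 → Fin t → Option (Bool × Bool), nc α = 0 := by
        intro α
        simp [nc]
      simp [h1]
    · have ht : t = 0 := by
        rcases Nat.mul_eq_zero.1 h0 with h | h
        · omega
        · exact h
      subst ht
      have h1 : ∀ α : Fin r → Fin 0 → Option (Bool × Bool), nc α = 0 := by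
        intro α
        simp [nc]
      have h2 : univ.filter (fun α : Fin r → Fin 0 → Option (Bool × Bool) => r ≤ nc α) = ∅ := by
        rw [filter_eq_empty_iff]
        intro α _
        rw [h1]
        omega
      rw [h2, sum_empty, zero_mul]
      positivity
  · have hrt : (0 : ℝ) < (r : ℝ) * t := by exact_mod_cast h0
    set q : ℝ := 4 * ((r : ℝ) * t) with hq
    have hqpos : 0 < q := by positivity
    have hqM : q ≤ M := by
      rw [hq]
      exact_mod_cast hM
    have h1 : (∑ α ∈ univ.filter (fun α : Fin r → Fin t → Option (Bool × Bool) => r ≤ nc α),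
        (1 / (M : ℝ)) ^ nc α) * M ^ r ≤
        q ^ r * ∑ α : Fin r → Fin t → Option (Bool × Bool), (1 / q) ^ nc α := by
      rw [sum_mul, mul_sum]
      refine (sum_le_sum (fun α hα => ?_)).trans
        (sum_le_sum_of_subset_of_nonneg (filter_subset _ _) fun α _ _ => by positivity)
      have h2 : r ≤ nc α := (mem_filter.1 hα).2
      obtain ⟨d, hd⟩ := Nat.exists_eq_add_of_le h2
      rw [hd, pow_add, pow_add]
      have e1 : (1 / (M : ℝ)) ^ r * (1 / (M : ℝ)) ^ d * M ^ r = (1 / (M : ℝ)) ^ d := by
        have : (1 / (M : ℝ)) ^ r * M ^ r = 1 := by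
          rw [← mul_pow, one_div, inv_mul_cancel₀ hMpos.ne', one_pow]
        calc (1 / (M : ℝ)) ^ r * (1 / (M : ℝ)) ^ d * M ^ r
            = ((1 / (M : ℝ)) ^ r * M ^ r) * (1 / (M : ℝ)) ^ d := by ring
          _ = _ := by rw [this, one_mul]
      have e2 : q ^ r * ((1 / q) ^ r * (1 / q) ^ d) = (1 / q) ^ d := by
        rw [← mul_assoc, ← mul_pow, one_div, mul_inv_cancel₀ hqpos.ne', one_pow, one_mul]
      rw [e1, e2]
      exact pow_le_pow_left₀ (by positivity) (one_div_le_one_div_of_le hqpos hqM) d
    refine h1.trans ?_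
    rw [sum_nc, mul_comm (3 : ℝ)]
    refine mul_le_mul_of_nonneg_left ?_ (by positivity)
    have h3 : (1 : ℝ) + 4 * (1 / q) ≤ Real.exp (1 / ((r : ℝ) * t)) := by
      have := Real.add_one_le_exp (1 / ((r : ℝ) * t))
      have e : (4 : ℝ) * (1 / q) = 1 / ((r : ℝ) * t) := by
        rw [hq]
        field_simp
      rw [e]
      linarith
    calc ((1 : ℝ) + 4 * (1 / q)) ^ (r * t) ≤ Real.exp (1 / ((r : ℝ) * t)) ^ (r * t) :=
          pow_le_pow_left₀ (by positivity) h3 _
      _ = Real.exp 1 := by
          rw [← Real.exp_nat_mul]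
          congr 1
          push_cast
          rw [mul_one_div, div_self hrt.ne']
      _ ≤ 3 := by
          have := Real.exp_one_lt_d9
          linarith

end Pool.Agent.H60.RC
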