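import Pool.Agent.H70.RC.Targets

/-!
# Replacement of the factors of a product distribution
-/

set_option autoImplicit false

namespace Pool.Agent.H60.RC

open Finset Pool.Agent.H70.RC

section
variable {J : Type} [Fintype J] [DecidableEq J] {T : J → Type} [∀ j, Fintype (T j)]

/-- exchange of a coordinate -/
def swp (j : J) : ((∀ j, T j) × T j) ≃ ((∀ j, T j) × T j) where
  toFun x := (Function.update x.1 j x.2, x.1 j)
  invFun x := (Function.update x.1 j x.2, x.1 j)
  left_inv x := by simp
  right_inv x := by simp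

theorem swap_sum (j : J) (c : T j → ℝ) (h : (∀ j, T j) → ℝ) :
    ∑ P : (∀ j, T j), ∑ p : T j, c (P j) * h (Function.update P j p) =
      (∑ p, c p) * ∑ P, h P := by
  calc ∑ P : (∀ j, T j), ∑ p : T j, c (P j) * h (Function.update P j p)
      = ∑ x : (∀ j, T j) × T j, c (x.1 j) * h (Function.update x.1 j x.2) := by
        rw [Fintype.sum_prod_type]
    _ = ∑ x : (∀ j, T j) × T j, c x.2 * h x.1 :=
        Fintype.sum_equiv (swp j) _ _ fun x => rfl
    _ = ∑ P : (∀ j, T j), ∑ p : T j, c p * h P := by rw [Fintype.sum_prod_type]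
    _ = _ := by
        rw [sum_comm, sum_mul]
        exact sum_congr rfl fun p _ => by rw [mul_sum]

/-- the total mass of a product -/
theorem mass_prod (c : ∀ j, T j → ℝ) : ∑ P : (∀ j, T j), ∏ j, c j (P j) = ∏ j, ∑ p, c j p := by
  rw [Finset.prod_univ_sum, Fintype.piFinset_univ]

/-- the factors of a mixed product -/
def mix (u v : ∀ j, T j → ℝ) (S : Finset J) (j : J) (p : T j) : ℝ := if j ∈ S then v j p else u j p

theorem one_step (u v : ∀ j, T j → ℝ) (B : (∀ j, T j) → ℝ) (δ : J → ℝ) (hu : ∀ j p, 0 ≤ u j p)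
    (hu1 : ∀ j, ∑ p, u j p = 1) (hv : ∀ j p, 0 ≤ v j p) (hv1 : ∀ j, ∑ p, v j p ≤ 1)
    (hδ : ∀ j, 0 ≤ δ j)
    (h : ∀ j P, ∑ p, u j p * B (Function.update P j p) - δ j ≤
      ∑ p, v j p * B (Function.update P j p)) (S : Finset J) (j : J) (hj : j ∉ S) :
    ∑ P, (∏ i, mix u v S i (P i)) * B P - δ j ≤ ∑ P, (∏ i, mix u v (insert j S) i (P i)) * B P := by
  -- the other factors
  set w : (∀ j, T j) → ℝ := fun P => ∏ i ∈ univ.erase j, mix u v S i (P i) with hw
  have hw0 : ∀ P, 0 ≤ w P := fun P => prod_nonneg fun i _ => by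
    unfold mix
    split_ifs
    · exact hv _ _
    · exact hu _ _
  have hwu : ∀ P p, w (Function.update P j p) = w P := by
    intro P p
    refine prod_congr rfl fun i hi => ?_
    rw [Function.update_of_ne (ne_of_mem_erase hi)]
  have e1 : ∀ P, ∏ i, mix u v S i (P i) = w P * u j (P j) := by
    intro P
    rw [hw, ← prod_erase_mul univ _ (mem_univ j)]
    congr 1
    simp [mix, hj]
  have e2 : ∀ P, ∏ i, mix u v (insert j S) i (P i) = w P * v j (P j) := by
    intro P
    rw [hw, ← prod_erase_mul univ _ (mem_univ j)]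
    congr 1
    · refine prod_congr rfl fun i hi => ?_
      have : i ≠ j := ne_of_mem_erase hi
      simp [mix, this]
    · simp [mix]
  have key : ∀ c : ∀ j, T j → ℝ, ∑ P, (w P * c j (P j)) * B P =
      ∑ P, (w P * u j (P j)) * ∑ p, c j p * B (Function.update P j p) := by
    intro c
    have h1 := swap_sum j (u j) (fun P => (w P * c j (P j)) * B P)
    rw [hu1, one_mul] at h1
    rw [← h1]
    refine sum_congr rfl fun P _ => ?_
    rw [mul_sum]
    refine sum_congr rfl fun p _ => ?_
    rw [hwu, Function.update_self]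
    ring
  simp only [e1, e2]
  rw [key u, key v]
  have h2 : ∑ P, w P * u j (P j) ≤ 1 := by
    have h3 : ∑ P, w P * u j (P j) = ∏ i, ∑ p, mix u v S i p := by
      rw [← mass_prod]
      exact sum_congr rfl fun P _ => (e1 P).symm
    rw [h3]
    refine prod_le_one (fun i _ => sum_nonneg fun p _ => ?_) fun i _ => ?_
    · unfold mix
      split_ifs
      · exact hv _ _
      · exact hu _ _
    · unfold mix
      split_ifs
      · exact hv1 i
      · exact (hu1 i).le
  have h3 : ∑ P, (w P * u j (P j)) * ∑ p, u j p * B (Function.update P j p) ≤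
      ∑ P, (w P * u j (P j)) * ∑ p, v j p * B (Function.update P j p) +
        ∑ P, (w P * u j (P j)) * δ j := by
    rw [← sum_add_distrib]
    refine sum_le_sum fun P _ => ?_
    rw [← mul_add]
    exact mul_le_mul_of_nonneg_left (by linarith [h j P]) (mul_nonneg (hw0 P) (hu _ _))
  have h4 : ∑ P, (w P * u j (P j)) * δ j ≤ δ j := by
    rw [← sum_mul]
    exact mul_le_of_le_one_left (hδ j) h2
  linarith

end

theorem pf_HYB : T_HYB := by
  intro J _ _ T _ u v B δ hu hu1 hv hv1 _ hδ h
  have key : ∀ S : Finset J, ∑ P, (∏ j, u j (P j)) * B P - ∑ j ∈ S, δ j ≤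
      ∑ P, (∏ i, mix u v S i (P i)) * B P := by
    intro S
    induction S using Finset.induction_on with
    | empty => simp [mix]
    | insert j S hj ih =>
      have h1 := one_step u v B δ hu hu1 hv hv1 hδ h S j hj
      rw [sum_insert hj]
      linarith
  have h1 := key univ
  simpa [mix] using h1

end Pool.Agent.H60.RC
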