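import Pool.Agent.H70.RC.Targets

/-!
# A short list of seeds
-/

set_option autoImplicit false

namespace Pool.Agent.H60.RC

open Finset Pool.Agent.H70.RC

theorem pf_NEW : T_NEW := by
  classical
  intro Ω Y _ _ _ w G M hw hw1 hG hM hY
  -- the weights of the lists
  have hprod : ∀ c : Ω → ℝ, ∑ l : Fin M → Ω, ∏ i, c (l i) = (∑ x, c x) ^ M := by
    intro c
    have h := Finset.prod_univ_sum (R := ℝ) (ι := Fin M) (fun _ => (univ : Finset Ω))
      (fun _ x => c x)
    rw [Fintype.piFinset_univ, prod_const, card_univ, Fintype.card_fin] at h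
    exact h.symm
  by_contra hcon
  have hbad : ∀ l : Fin M → Ω, (∀ i, w (l i) ≠ 0) →
      ∃ y, M < 100 * (univ.filter fun i => ¬ G y (l i)).card := by
    intro l hl
    by_contra h
    push Not at h
    exact hcon ⟨l, hl, fun y => by convert h y⟩
  -- the bound for one list
  have hone : ∀ l : Fin M → Ω, ∏ i, w (l i) ≤
      ∑ y, (1 / 2 : ℝ) ^ (3 * M) * ∏ i, (w (l i) * if G y (l i) then 1 else 2 ^ 300) := by
    intro l
    have hnn : ∀ y, 0 ≤ (1 / 2 : ℝ) ^ (3 * M) *
        ∏ i, (w (l i) * if G y (l i) then 1 else 2 ^ 300) := fun y =>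
      mul_nonneg (by positivity) (prod_nonneg fun i _ => mul_nonneg (hw _) (by split_ifs <;> positivity))
    by_cases hl : ∀ i, w (l i) ≠ 0
    · obtain ⟨y, hy⟩ := hbad l hl
      refine le_trans ?_ (single_le_sum (fun y _ => hnn y) (mem_univ y))
      rw [prod_mul_distrib]
      have h1 : ∏ i, (if G y (l i) then (1 : ℝ) else 2 ^ 300) =
          (2 ^ 300) ^ (univ.filter fun i => ¬ G y (l i)).card := by
        rw [prod_ite, prod_const_one, one_mul, prod_const]
      rw [h1]
      have h2 : (2 : ℝ) ^ (3 * M) ≤ (2 ^ 300) ^ (univ.filter fun i => ¬ G y (l i)).card := by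
        rw [← pow_mul]
        exact pow_le_pow_right₀ (by norm_num) (by omega)
      have h3 : 0 ≤ ∏ i, w (l i) := prod_nonneg fun i _ => hw _
      calc ∏ i, w (l i) = (1 / 2 : ℝ) ^ (3 * M) * ((∏ i, w (l i)) * 2 ^ (3 * M)) := by
            have : (1 / 2 : ℝ) ^ (3 * M) * 2 ^ (3 * M) = 1 := by
              rw [← mul_pow]
              norm_num
            calc ∏ i, w (l i) = (∏ i, w (l i)) * ((1 / 2 : ℝ) ^ (3 * M) * 2 ^ (3 * M)) := by
                  rw [this, mul_one]
              _ = _ := by rw [mul_left_comm]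
        _ ≤ _ := mul_le_mul_of_nonneg_left (mul_le_mul_of_nonneg_left h2 h3) (by positivity)
    · push Not at hl
      obtain ⟨i, hi⟩ := hl
      rw [prod_eq_zero (mem_univ i) hi]
      exact sum_nonneg fun y _ => hnn y
  -- the masses
  have hmass : ∀ y, ∑ x, (w x * if G y x then (1 : ℝ) else 2 ^ 300) ≤ 2 := by
    intro y
    have h1 : ∑ x, (w x * if G y x then (1 : ℝ) else 2 ^ 300) =
        ∑ x, w x * (if G y x then (1 : ℝ) else 0) +
          2 ^ 300 * ∑ x, w x * (if G y x then (0 : ℝ) else 1) := by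
      rw [mul_sum, ← sum_add_distrib]
      refine sum_congr rfl fun x _ => ?_
      split_ifs <;> ring
    have h2 : ∑ x, w x * (if G y x then (1 : ℝ) else 0) +
        ∑ x, w x * (if G y x then (0 : ℝ) else 1) = ∑ x, w x := by
      rw [← sum_add_distrib]
      refine sum_congr rfl fun x _ => ?_
      split_ifs <;> ring
    have h3 := hG y
    have h3' : 1 - (1 / 2 : ℝ) ^ 300 ≤ ∑ x, w x * (if G y x then (1 : ℝ) else 0) := by
      convert h3
    have h4 : 0 ≤ ∑ x, w x * (if G y x then (0 : ℝ) else 1) :=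
      sum_nonneg fun x _ => mul_nonneg (hw x) (by split_ifs <;> norm_num)
    have h5 : ∑ x, w x * (if G y x then (0 : ℝ) else 1) ≤ (1 / 2) ^ 300 := by
      generalize (1 / 2 : ℝ) ^ 300 = e at h3'
      linarith
    have h6 : (2 : ℝ) ^ 300 * ∑ x, w x * (if G y x then (0 : ℝ) else 1) ≤ 1 := by
      calc (2 : ℝ) ^ 300 * ∑ x, w x * (if G y x then (0 : ℝ) else 1)
          ≤ 2 ^ 300 * (1 / 2) ^ 300 := mul_le_mul_of_nonneg_left h5 (by positivity)
        _ = 1 := by rw [← mul_pow]; norm_num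
    have h7 : ∑ x, w x * (if G y x then (1 : ℝ) else 0) ≤ 1 := by
      rw [← h2] at hw1
      exact (le_add_of_nonneg_right h4).trans hw1
    rw [h1]
    exact (add_le_add h7 h6).trans (by norm_num)
  have hmass0 : ∀ y, 0 ≤ ∑ x, (w x * if G y x then (1 : ℝ) else 2 ^ 300) := fun y =>
    sum_nonneg fun x _ => mul_nonneg (hw x) (by split_ifs <;> positivity)
  -- the total
  have hup : (∑ x, w x) ^ M ≤ (1 / 2 : ℝ) ^ M := by
    calc (∑ x, w x) ^ M = ∑ l : Fin M → Ω, ∏ i, w (l i) := (hprod w).symm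
      _ ≤ ∑ l : Fin M → Ω, ∑ y, (1 / 2 : ℝ) ^ (3 * M) *
          ∏ i, (w (l i) * if G y (l i) then 1 else 2 ^ 300) := sum_le_sum fun l _ => hone l
      _ = ∑ y, (1 / 2 : ℝ) ^ (3 * M) *
          (∑ x, (w x * if G y x then (1 : ℝ) else 2 ^ 300)) ^ M := by
          rw [sum_comm]
          refine sum_congr rfl fun y _ => ?_
          rw [← mul_sum, hprod (fun x => w x * if G y x then (1 : ℝ) else 2 ^ 300)]
      _ ≤ ∑ _y : Y, (1 / 2 : ℝ) ^ (3 * M) * 2 ^ M := by
          refine sum_le_sum fun y _ => mul_le_mul_of_nonneg_left ?_ (by positivity)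
          exact pow_le_pow_left₀ (hmass0 y) (hmass y) M
      _ = (Fintype.card Y : ℝ) * ((1 / 2 : ℝ) ^ (3 * M) * 2 ^ M) := by
          rw [sum_const, card_univ, nsmul_eq_mul]
      _ ≤ (2 : ℝ) ^ M * ((1 / 2 : ℝ) ^ (3 * M) * 2 ^ M) := by
          refine mul_le_mul_of_nonneg_right ?_ (by positivity)
          exact_mod_cast hY
      _ = (1 / 2 : ℝ) ^ M := by
          have e1 : (1 / 2 : ℝ) ^ (3 * M) = (1 / 2) ^ M * ((1 / 2) ^ M * (1 / 2) ^ M) := by
            rw [← pow_add, ← pow_add]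
            congr 1
            omega
          have e2 : (1 / 2 : ℝ) ^ M * 2 ^ M = 1 := by
            rw [← mul_pow]
            norm_num
          rw [e1]
          calc (2 : ℝ) ^ M * ((1 / 2) ^ M * ((1 / 2) ^ M * (1 / 2) ^ M) * 2 ^ M)
              = ((1 / 2 : ℝ) ^ M * 2 ^ M) * ((1 / 2 : ℝ) ^ M * 2 ^ M) * (1 / 2) ^ M := by ring
            _ = _ := by rw [e2, one_mul, one_mul]
  have hlow : (1 / 2 : ℝ) < ∑ x, w x := by
    obtain ⟨y⟩ := (inferInstance : Nonempty Y)
    have h3 := hG y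
    have h3' : 1 - (1 / 2 : ℝ) ^ 300 ≤ ∑ x, w x * (if G y x then (1 : ℝ) else 0) := by
      convert h3
    have h4 : ∑ x, w x * (if G y x then (1 : ℝ) else 0) ≤ ∑ x, w x :=
      sum_le_sum fun x _ => mul_le_of_le_one_right (hw x) (by split_ifs <;> norm_num)
    have h5 : (1 / 2 : ℝ) ^ 300 < 1 / 2 := by
      calc (1 / 2 : ℝ) ^ 300 ≤ (1 / 2) ^ 2 :=
            pow_le_pow_of_le_one (by norm_num) (by norm_num) (by norm_num)
        _ < 1 / 2 := by norm_num
    have h6 : (1 / 2 : ℝ) < 1 - (1 / 2) ^ 300 := by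
      generalize (1 / 2 : ℝ) ^ 300 = e at h5
      linarith
    exact h6.trans_le (h3'.trans h4)
  have hlt : (1 / 2 : ℝ) ^ M < (∑ x, w x) ^ M :=
    pow_lt_pow_left₀ hlow (by norm_num) (by omega)
  linarith

end Pool.Agent.H60.RC
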