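import Pool.Agent.H28.RC.Targets3

/-!
NTA: a prime at which the order of `a` is a given prime power.
-/

set_option autoImplicit false

open Finset

namespace Pool.Agent.H60.RC

open Pool.Agent.H28.RC

namespace NTA

/-- the geometric sum -/
def T (b l : ℕ) : ℕ := ∑ i ∈ range l, b ^ i

theorem T_mul (b l : ℕ) (hb : 1 ≤ b) : T b l * (b - 1) = b ^ l - 1 := by
  unfold T
  have h1 : 1 ≤ b ^ l := Nat.one_le_pow _ _ hb
  have h2 := geom_sum_mul (b : ℤ) l
  zify [hb, h1]
  exact h2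

theorem lt_T {b l : ℕ} (hb : 2 ≤ b) (hl : 2 ≤ l) : l < T b l := by
  unfold T
  obtain ⟨k, rfl⟩ : ∃ k, l = k + 2 := ⟨l - 2, by omega⟩
  rw [sum_range_succ]
  have h1 : ∑ i ∈ range (k + 1), 1 ≤ ∑ i ∈ range (k + 1), b ^ i :=
    sum_le_sum fun i _ => Nat.one_le_pow _ _ (by omega)
  rw [sum_const, card_range, smul_eq_mul, mul_one] at h1
  have h2 : b ≤ b ^ (k + 1) := Nat.le_self_pow (by omega) b
  omega

/-- a prime divisor of the geometric sum which does not divide `b - 1` -/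
theorem exists_q (b l : ℕ) (hl : l.Prime) (hb : 2 ≤ b) (hsq : l = 2 → ∃ c, 2 ≤ c ∧ b = c ^ 2) :
    ∃ q : ℕ, q.Prime ∧ q ∣ T b l ∧ (b : ZMod q) ≠ 1 := by
  by_contra hc
  push Not at hc
  have hlT := lt_T hb hl.two_le
  have hT0 : T b l ≠ 0 := by omega
  -- all prime divisors are equal to `l`
  have h1 : ∀ q : ℕ, q.Prime → q ∣ T b l → q = l ∧ (b : ZMod q) = 1 := by
    intro q hq hqT
    have h2 := hc q hq hqT
    refine ⟨?_, h2⟩
    have h3 : ((T b l : ℕ) : ZMod q) = 0 := (ZMod.natCast_eq_zero_iff _ _).2 hqT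
    unfold T at h3
    push_cast at h3
    rw [h2] at h3
    simp only [one_pow, sum_const, card_range, nsmul_eq_mul, mul_one] at h3
    have h4 := (ZMod.natCast_eq_zero_iff _ _).1 h3
    exact (Nat.prime_dvd_prime_iff_eq hq hl).1 h4
  have hpow := Nat.eq_prime_pow_of_unique_prime_dvd hT0 fun {d} hd hdT => (h1 d hd hdT).1
  set k := (T b l).primeFactorsList.length with hk
  have hk2 : 2 ≤ k := by
    by_contra h
    have h3 : k = 0 ∨ k = 1 := by omega
    rcases h3 with h3 | h3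
    · rw [h3, pow_zero] at hpow
      have := hl.two_le
      omega
    · rw [h3, pow_one] at hpow
      omega
  rcases hl.eq_two_or_odd' with h2 | hodd
  · -- `l = 2`
    obtain ⟨c, hc2, hbc⟩ := hsq h2
    subst h2
    have hT : T b 2 = c ^ 2 + 1 := by
      unfold T
      rw [sum_range_succ, sum_range_succ, sum_range_zero, hbc]
      ring
    have h4 : 4 ∣ T b 2 := by
      rw [hpow]
      exact pow_dvd_pow 2 hk2
    rw [hT] at h4
    have h5 : c % 4 = 0 ∨ c % 4 = 1 ∨ c % 4 = 2 ∨ c % 4 = 3 := by omega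
    have h6 : (c ^ 2 + 1) % 4 = 0 := Nat.mod_eq_zero_of_dvd h4
    rw [pow_two, Nat.add_mod, Nat.mul_mod] at h6
    rcases h5 with h | h | h | h <;> rw [h] at h6 <;> omega
  · haveI := Fact.mk hl
    have hlT' : l ∣ T b l := by
      rw [hpow]
      exact dvd_pow_self l (by omega)
    have hb1 := (h1 l hl hlT').2
    have hdvd : l ∣ b - 1 := by
      rw [← ZMod.natCast_eq_zero_iff, Nat.cast_sub (by omega), hb1]
      simp
    have hnd : ¬ l ∣ b := by
      rw [← ZMod.natCast_eq_zero_iff, hb1]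
      exact one_ne_zero
    have h7 := padicValNat.pow_sub_pow hodd (show 1 < b by omega) hdvd hnd (n := l) hl.ne_zero
    rw [one_pow, ← T_mul b l (by omega), padicValNat.mul hT0 (by omega), padicValNat_self,
      hpow, padicValNat.prime_pow] at h7
    omega

end NTA

theorem pf_NTA : T_NTA := by
  intro a l r ha hl hr
  obtain ⟨s, rfl⟩ : ∃ s, r = s + 2 := ⟨r - 2, by omega⟩
  set b := a ^ l ^ (s + 1) with hb
  have hl0 : l ^ (s + 1) ≠ 0 := pow_ne_zero _ hl.ne_zero
  have hb2 : 2 ≤ b := ha.trans (Nat.le_self_pow hl0 a)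
  obtain ⟨q, hq, hqT, hqb⟩ := NTA.exists_q b l hl hb2 (by
    rintro rfl
    refine ⟨a ^ 2 ^ s, ha.trans (Nat.le_self_pow (by positivity) a), ?_⟩
    rw [hb, ← pow_mul, ← pow_succ])
  haveI := Fact.mk hq
  haveI := Fact.mk hl
  have h1 : ((a : ZMod q)) ^ l ^ (s + 1 + 1) = 1 := by
    have h2 := geom_sum_mul (b : ZMod q) l
    have h3 : ((NTA.T b l : ℕ) : ZMod q) = 0 := (ZMod.natCast_eq_zero_iff _ _).2 hqT
    unfold NTA.T at h3
    push_cast at h3
    rw [h3, zero_mul] at h2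
    have h4 : (b : ZMod q) ^ l = 1 := (sub_eq_zero.1 h2.symm)
    rw [pow_succ, pow_mul]
    have h5 : (a : ZMod q) ^ l ^ (s + 1) = (b : ZMod q) := by
      rw [hb]
      push_cast
      rfl
    rw [h5]
    exact h4
  have h0 : ¬ ((a : ZMod q)) ^ l ^ (s + 1) = 1 := by
    intro h
    apply hqb
    rw [hb]
    push_cast
    exact h
  refine ⟨q, hq, ?_, orderOf_eq_prime_pow h0 h1⟩
  rw [hq.coprime_iff_not_dvd]
  intro hqa
  rw [(ZMod.natCast_eq_zero_iff _ _).2 hqa, zero_pow (pow_ne_zero _ hl.ne_zero)] at h1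
  exact zero_ne_one h1

end Pool.Agent.H60.RC
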